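import Pool.Agent.N110.DV.Im
import Pool.Agent.N110.DV.Main

/-!
Divisors on varieties which are dominated by a variety with an abelian group of birational self-maps
of positive entropy which preserve the class of a divisor.
-/

set_option autoImplicit false

open FF Pool.Agent.W602.GT Pool.Agent.Y172 Pool.Agent.R887 Pool.Agent.N110 Pool.Agent.N110.DV

/-- Let `X'` be a normal projective variety of dimension `n ≥ 1`, with generic point `y'` (a
Calabi-Yau manifold, for instance). By the theorem of Néron and Severi the group of the divisors on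
`X'` modulo numerical equivalence is finitely generated; this is the hypothesis `hN`. Let `L'` be a
`ℚ`-divisor on `X'` and let `ℤ ^ r`, `r ≥ 1`, act by birational self-maps `f_v` of `X'`, given by the
automorphisms `φ v = f_v^*` of the function field, which are isomorphisms in codimension one (every
birational self-map is one if the canonical class is trivial and `X'` is smooth) and preserve the
numerical class of `L'` (the divisors `L' - f_v^* L'` are pseudo-effective). Suppose that the first
dynamical degree of `f_v` is greater than `1` for all `v ≠ 0`.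

Let `X` be any normal projective variety and `L` a `ℚ`-divisor on `X`, and let `X' ⇢ X` be a dominant
generically finite rational map, given by the homomorphism `π` of the function fields, which
contracts no prime divisors, such that `L' - π^* L` is pseudo-effective (for instance a finite
quotient map and `L' = π^* L`). The map has nothing to do with the maps `f_v`. Then
`r ≤ n - 1`, the numerical dimension of `L` is at most `n - 1 - r`, and so is the Iitaka dimension. If
the Iitaka dimension is at least `n - 1 - r` then the Iitaka dimension and the numerical dimension of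
`L` are equal. If `r = n - 1`, `L` is nef and the irregularity of `X` is zero, then `L` is torsion:
`m L` is the divisor of a rational function for some `m ≥ 1`. -/
theorem Pool.Agent.Results.MP_cfacaa_ag.DominatedDivisorsEntropy.result
    {K K' : Type} [Field K] [Algebra ℂ K] [Field K'] [Algebra ℂ K'] {N N' n : ℕ}
    {y : Fin (N + 1) → K} {y' : Fin (N' + 1) → K'} (hy : NormalModel y) (hy' : NormalModel y')
    (hn : Algebra.trdeg ℂ K = n) (hn' : Algebra.trdeg ℂ K' = n) (hn0 : 0 < n)
    (hN : NeronSeveri y')
    {L' : Place ℂ K' → ℚ} (hL' : {P | IsPrimeDivisor y' P ∧ L' P ≠ 0}.Finite)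
    {r : ℕ} (hr : 0 < r) {φ : (Fin r → ℤ) → (K' ≃ₐ[ℂ] K')}
    (hφ : ∀ u v, φ (u + v) = φ u * φ v)
    (hiso : ∀ v, PseudoAut (φ v) y') (hcl : ∀ v, ClassLe (φ v) y' L')
    (hent : ∀ v, v ≠ 0 → 1 < dynDegree (φ v) y' n 1)
    {L : Place ℂ K → ℚ} (hL : {P | IsPrimeDivisor y P ∧ L P ≠ 0}.Finite) {π : K →ₐ[ℂ] K'}
    (hπ : ImgClassLe π y L y' L') :
    r < n ∧ NuLt y n L (n - r) ∧ ¬ IitakaGe y L (n - r) ∧
      (IitakaGe y L (n - r - 1) → AbundantD y n L) ∧
      (r + 1 = n → NefD y n L → IrregularityZero y → ∃ m : ℕ, 1 ≤ m ∧ ∃ g : K, g ≠ 0 ∧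
        ∀ P, IsPrimeDivisor y P → (P.ord g : ℚ) = m * L P) := by
  have hgr := RK.growthRank_of_exp (PA.growthN hy' hn' hn0 hN hr hφ hiso hent)
  obtain ⟨h1, h2'⟩ := rank_mainD hy' hn' hn0 hL' hr hφ hiso hcl hgr
  have h2 := nuLt_img hy hy' hn hn' hπ (Nat.sub_le _ _) h2'
  refine ⟨h1, h2, iitaka_lt hy hn (Nat.sub_le _ _) h2, fun h => ⟨n - r - 1, h, ?_⟩,
    fun h3 hnef hq => ?_⟩
  · rwa [show n - r - 1 + 1 = n - r by omega]
  · rw [show n - r = 1 by omega] at h2
    obtain ⟨m, hm, g, hg0, hg⟩ := trivialD hy hn hn0 hL hq hnef h2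
    refine ⟨m, hm, g⁻¹, inv_ne_zero hg0, fun P hP => ?_⟩
    have h4 := hg P hP
    rw [P.ord_inv]
    push_cast
    linarith
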