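import Pool.Agent.N110.DV.Main

/-!
Divisors whose class is invariant under birational self-maps: the numerical dimension is bounded by
the number of the consecutive greatest dynamical degrees.
-/

set_option autoImplicit false

open FF Pool.Agent.W602.GT Pool.Agent.Y172 Pool.Agent.R887 Pool.Agent.N110 Pool.Agent.N110.DV

/-- Let `X` be a normal projective variety of dimension `n ≥ 1` with generic point `y` (a Calabi-Yau
manifold, for instance), and `L` a `ℚ`-divisor on `X`. Let `S` be a set of birational self-maps `f`
of `X` of bounded degrees (one map, for instance) which are isomorphisms in codimension one (on a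
variety with terminal singularities and torsion canonical class every birational self-map is one),
given by the automorphisms `φ = f^*` of the function field, and suppose that they preserve the
numerical class of `L` (the divisors `L - f^* L` and `L - (f⁻¹)^* L` are pseudo-effective). Suppose
that the greatest of the joint dynamical degrees `λ 0, ..., λ n` of `S` (the dynamical degrees of
`f`, if `S = {f}`) is not attained at `ν + 1` consecutive indices. Then the numerical dimension of `L`
is less than `ν`, and so is the Iitaka dimension. If the Iitaka dimension is at least `ν - 1` then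
the Iitaka dimension and the numerical dimension of `L` are equal. For `ν = 1` the numerical
dimension of `L` is at most zero; if moreover `L` is nef and the irregularity of `X` is zero, then
`L` is torsion: `m L` is the divisor of a rational function for some `m ≥ 1`. -/
theorem Pool.Agent.Results.MP_cfacaa_ag.InvariantClassPlateau.result
    {K : Type} [Field K] [Algebra ℂ K] {N n : ℕ} {y : Fin (N + 1) → K} (hy : NormalModel y)
    (hn : Algebra.trdeg ℂ K = n) (hn0 : 0 < n) {L : Place ℂ K → ℚ}
    (hL : {P | IsPrimeDivisor y P ∧ L P ≠ 0}.Finite) {S : Set (K ≃ₐ[ℂ] K)}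
    (hiso : ∀ φ ∈ S, PseudoAut φ y) (h1 : ∀ φ ∈ S, ClassLe φ y L)
    (h2 : ∀ φ ∈ S, ClassLe φ⁻¹ y L) {C : ℕ} (hC : ∀ φ ∈ S, mixedDegree φ y n 1 ≤ C) {ν : ℕ}
    (hν : ν ≤ n) (hdeg : ∀ j, j + ν ≤ n → ∃ a ≤ ν, ∃ p ≤ n,
      jointDegree S y n (j + a) < jointDegree S y n p) :
    NuLt y n L ν ∧ ¬ IitakaGe y L ν ∧ (1 ≤ ν → IitakaGe y L (ν - 1) → AbundantD y n L) ∧
      (ν = 1 → NefD y n L → IrregularityZero y → ∃ m : ℕ, 1 ≤ m ∧ ∃ g : K, g ≠ 0 ∧
        ∀ P, IsPrimeDivisor y P → (P.ord g : ℚ) = m * L P) := by
  have key : NuLt y n L ν := by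
    by_contra hnum
    obtain ⟨j, hj, h4⟩ := plateauD hy hn hL hiso h1 h2 hC hν hnum
    obtain ⟨a, ha, p, hp, hlt⟩ := hdeg j hj
    exact absurd hlt (not_lt.2 (h4 a ha p hp))
  refine ⟨key, iitaka_lt hy hn hν key, fun h3 h4 => ⟨ν - 1, h4, ?_⟩, ?_⟩
  · rwa [show ν - 1 + 1 = ν by omega]
  · rintro rfl hnef hq
    obtain ⟨m, hm, g, hg0, hg⟩ := trivialD hy hn hn0 hL hq hnef key
    refine ⟨m, hm, g⁻¹, inv_ne_zero hg0, fun P hP => ?_⟩
    have h4 := hg P hP
    rw [P.ord_inv]
    push_cast
    linarith
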