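import Pool.Agent.N110.CC.V

/-!
Nef classes in invariant subspaces of small dimension.
-/

set_option autoImplicit false

open FF Pool.Agent.W602.GT Pool.Agent.Y172 Pool.Agent.R887 Pool.Agent.N110 Pool.Agent.N110.CC

/-- Let `X'` be a normal projective variety of dimension `n ≥ 1`, with generic point `y'`. Let the
vectors `c' P` be the classes of the prime divisors in `N¹(X') = ℤ ^ ρ`. Let `ℤ ^ r` act on `X'` by
pseudo-automorphisms `f_v`, given by the automorphisms `φ v = f_v^*` of the function field, and
suppose that `f_v` has positive entropy (the first dynamical degree is greater than `1`) for all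
`v ≠ 0`. Let `V` be a subspace of dimension `r + 1` of `N¹(X') ⊗ ℚ = ℚ ^ ρ` which contains the class
of a big divisor `B` and is mapped to itself by the pull backs `f_v^*`, for instance the span of the
classes `f_v^* B`, if its dimension is `r + 1`.

Let `X' → X` be a finite morphism onto a normal projective variety `X`, for instance `X = X'` or a
quotient by a finite group, given by the homomorphism `π` of the function fields (more generally, a
rational map which is a finite morphism in codimension one). The morphism has nothing to do with the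
maps `f_v`. Let `L` be a pseudo-effective `ℚ`-divisor on `X`, for instance a nef divisor, such that
the class of its pull back to `X'` is in `V`.

Then `L` is numerically trivial (`-L` is pseudo-effective, too) or `L` is big. -/
theorem Pool.Agent.Results.MP_cfacaa_ag.OrbitSpan.result
    {K K' : Type} [Field K] [Algebra ℂ K] [Field K'] [Algebra ℂ K'] {N N' n r ρ : ℕ}
    {y : Fin (N + 1) → K} {y' : Fin (N' + 1) → K'} (hy : NormalModel y) (hy' : NormalModel y')
    (hn : Algebra.trdeg ℂ K = n) (hn' : Algebra.trdeg ℂ K' = n) (hn0 : 0 < n) (hr : 0 < r)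
    {c' : Place ℂ K' → Fin ρ → ℤ} (hc' : PicardBasis y' c')
    {φ : (Fin r → ℤ) → (K' ≃ₐ[ℂ] K')} (hφ : ∀ u v, φ (u + v) = φ u * φ v)
    (hps : ∀ v, PseudoAut (φ v) y') (hent : ∀ v, v ≠ 0 → 1 < dynDegree (φ v) y' n 1)
    {V : Submodule ℚ (Fin ρ → ℚ)} (hV : Module.finrank ℚ V = r + 1)
    (hst : ∀ v T, IsPullBack y' c' (φ v) T → ∀ q ∈ V, ∃ q' ∈ V,
      T (fun i => (q i : ℝ)) = fun i => (q' i : ℝ))
    {B : Place ℂ K' → ℚ} (hB : {P | IsPrimeDivisor y' P ∧ B P ≠ 0}.Finite)
    (hBV : cls y' (fun P i => (c' P i : ℚ)) B ∈ V) (hBb : BigD y' B)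
    {π : K →ₐ[ℂ] K'} (hπ : FiniteMap π y y') {L : Place ℂ K → ℚ}
    (hL : {P | IsPrimeDivisor y P ∧ L P ≠ 0}.Finite)
    (hLV : ∀ L' : Place ℂ K' → ℚ, {P | IsPrimeDivisor y' P ∧ L' P ≠ 0}.Finite →
      (∀ Q P e, IsPrimeDivisor y' Q → LiesOver π Q P e → L' Q = e * L P) →
      cls y' (fun P i => (c' P i : ℚ)) L' ∈ V)
    (hpsef : PsefD y L) : PsefD y (fun P => -L P) ∨ BigD y L :=
  span_img hy hy' hn hn' hn0 hr hc' hφ hps hent hV hst hB hBV hBb hπ hL hLV hpsef
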