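import Pool.Agent.N133.TB.HomdM
import Pool.Agent.N133.TB.Secv

/-!
MP_cfacaa_ag, Q1: stable tensors with values in a line bundle, on varieties with trivial canonical
class.

`NormalModel y` (`Pool/Agent/Y172/Defs.lean`): `y` is the generic point, in homogeneous coordinates,
of a normal projective variety `X` with function field `K`; `IsPrimeDivisor y P` says that the
valuation `P` of `K` is a prime divisor of `X`. Divisors are given by their multiplicities.

`GenBy y n Δ r η` (`Pool/Agent/N133/TB/TwA.lean`): `r (K_X + Δ)` is trivial, with generator `η`: the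
`r`-pluricanonical form `η` has, along each prime divisor `P` of `X`, exactly the order `- r Δ P`.
`IsTensorV y Δ L T`: the `K`-multilinear form `T` on the rational vector fields is a tensor
differential of `(X, Δ)` with values in `L`: if the vector fields `D j` are regular along the prime
divisor `P` and, for `j` not in `S`, tangent to `P`, then `T D` has order at least
`- (|S| Δ P + L P)` along `P`. For `X` smooth, `Δ = 0` and `L` a divisor these are the elements of
`H⁰ (X, (Ω¹) ^ ⊗ m ⊗ O (L))`. `FunSec y L f`: `f` is a section of `L`, `div f + L ≥ 0`.

`coef T E`: the coefficients of the `T i` in the frame `E`; `act A t`: the family in the basis given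
by the rows of the matrix `A`; `StableFam t`: `t ≠ 0`, and in no basis do all coefficients of negative
weight vanish, for any integral weights of sum `0` which are not all `0` (stability for the group
`SL n`, by the criterion of Hilbert and Mumford). `ratioField y L`: the field generated by the
quotients of two sections of one positive multiple of `L`; its transcendence degree over `ℂ` is
`κ (X, L)`.
-/

set_option autoImplicit false

namespace Pool.Agent.Results.MP_cfacaa_ag.StableLineBundleTensors

open FF Pool.Agent.Y172 Pool.Agent.Y174 Pool.Agent.N133.TB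

/-- Let `X` be a normal projective variety of dimension `n ≥ 1`, `Δ` a `ℚ`-divisor with
`r (K_X + Δ) ∼ 0`, `r ≥ 1` (e.g. `X` a Calabi-Yau manifold and `Δ = 0`), `L` a `ℚ`-divisor on `X` and
`T i`, `i ∈ ι`, finitely many tensor differentials of `(X, Δ)` with values in `a i • L`, `a i ≥ 0`,
with `T i ≠ 0` for some `i` with `a i ≥ 1`, which are together stable at the generic point of `X`.
Then a multiple `e • L`, `e ≥ 1`, has a nonzero section, and in a suitable basis of the rational
vector fields over the algebraic closure of `K`, and after the multiplication of `T i` with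
`u ^ a i` for one `u ≠ 0`, all coefficients of the `T i` are algebraic over the field generated by
the quotients of sections of the multiples of `L`. So the Iitaka dimension `κ (X, L)` is nonnegative
and at least the number of moduli of the family `T i` (up to the scaling by `u ^ a i`) at the general
point of `X`. -/
theorem result {K : Type} [Field K] [Algebra ℂ K] {n N : ℕ} {y : Fin (N + 1) → K}
    (hy : NormalModel y) (hn : Algebra.trdeg ℂ K = n) (hn1 : 1 ≤ n) {Δ L : Place ℂ K → ℚ} {r : ℕ}
    (hr : 1 ≤ r) {η : (Fin n → Derivation ℂ K K) → K} (hη : GenBy y n Δ r η) (hη0 : η ≠ 0)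
    {ι : Type} [Finite ι] {m a : ι → ℕ}
    {T : (i : ι) → MultilinearMap K (fun _ : Fin (m i) => Derivation ℂ K K) K}
    (hT : ∀ i, IsTensorV y Δ (a i • L) (T i)) (hT0 : ∃ i, 1 ≤ a i ∧ T i ≠ 0)
    {E : Fin n → Derivation ℂ K K} (hE : LinearIndependent K E)
    (hst : StableFam (coef T E)) :
    (∃ e : ℕ, 1 ≤ e ∧ ∃ f, f ≠ 0 ∧ FunSec y (e • L) f) ∧
    ∃ (u : AlgebraicClosure K) (A : Matrix (Fin n) (Fin n) (AlgebraicClosure K)), u ≠ 0 ∧
      A.det ≠ 0 ∧ ∀ i J, IsAlgebraic (ratioField y L) (u ^ a i * act A (coef T E) i J) :=
  tw_stable my_homd t_secv hy hn hn1 hr hη hη0 hT hT0 hE hst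

end Pool.Agent.Results.MP_cfacaa_ag.StableLineBundleTensors
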